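import Mathlib

/-!
# Classes of the points of `y² = x (x² + a x + b)` in `L[T] / (T² + a T + b)`
-/

set_option autoImplicit false
set_option linter.unusedSectionVars false

namespace Pool.Agent.L0h4.TC

/-- `u + v T` is a square modulo `T² + a T + b` -/
def SqZ (L : Type) [Field L] (a b : ℤ) (u v : L) : Prop :=
  ∃ g h : L, u = g ^ 2 - b * h ^ 2 ∧ v = 2 * g * h - a * h ^ 2

/-- `X - T = (u + v T) (g + h T)²` modulo `T² + a T + b` for a point `(X, Y)`, `Y ≠ 0`, of the
curve `Y² = X (X² + a X + b)` -/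
def PtZ (L : Type) [Field L] (a b : ℤ) (u v : L) : Prop :=
  ∃ X Y g h : L, Y ≠ 0 ∧ Y ^ 2 = X * (X ^ 2 + a * X + b) ∧
    X = u * (g ^ 2 - b * h ^ 2) - b * v * (2 * g * h - a * h ^ 2) ∧
    -1 = u * (2 * g * h - a * h ^ 2) + v * (g ^ 2 - b * h ^ 2) - a * v * (2 * g * h - a * h ^ 2)

/-- the class of `u + v T` is the class of `O`, of `(0, 0)` or of a point with `Y ≠ 0` -/
def LocZ (L : Type) [Field L] (a b : ℤ) (u v : L) : Prop :=
  SqZ L a b u v ∨ SqZ L a b (b * v) (a * v - u) ∨ PtZ L a b u v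

section
variable {L L' : Type} [Field L] [Field L'] (f : L →+* L') {a b : ℤ} {u v : L}

lemma SqZ.map (h : SqZ L a b u v) : SqZ L' a b (f u) (f v) := by
  obtain ⟨g, k, h1, h2⟩ := h
  refine ⟨f g, f k, ?_, ?_⟩
  · rw [h1]
    simp only [map_sub, map_mul, map_pow, map_intCast]
  · rw [h2]
    simp only [map_sub, map_mul, map_pow, map_intCast, map_ofNat]

lemma PtZ.map (h : PtZ L a b u v) : PtZ L' a b (f u) (f v) := by
  obtain ⟨X, Y, g, k, hY, h0, h1, h2⟩ := h
  refine ⟨f X, f Y, f g, f k, (map_ne_zero f).2 hY, ?_, ?_, ?_⟩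
  · rw [← map_pow, h0]
    simp only [map_add, map_mul, map_pow, map_intCast]
  · rw [h1]
    simp only [map_sub, map_mul, map_pow, map_intCast, map_ofNat]
  · have := congrArg f h2
    simp only [map_neg, map_one, map_add, map_sub, map_mul, map_pow, map_intCast,
      map_ofNat] at this
    exact this

lemma LocZ.map (h : LocZ L a b u v) : LocZ L' a b (f u) (f v) := by
  rcases h with h | h | h
  · exact Or.inl (h.map f)
  · refine Or.inr (Or.inl ?_)
    have := h.map f
    simp only [map_sub, map_mul, map_intCast] at this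
    exact this
  · exact Or.inr (Or.inr (h.map f))

end

section
variable {L : Type} [Field L] [CharZero L] {D : ℤ} (hD : D ≠ 0)

/-- `c + d √-7` is a square -/
def SqS (L : Type) [Field L] (c d : L) : Prop := ∃ g h : L, c = g ^ 2 - 7 * h ^ 2 ∧ d = 2 * g * h

omit [CharZero L] in
lemma SqS.mul {c d c' d' : L} (h : SqS L c d) (h' : SqS L c' d') :
    SqS L (c * c' - 7 * d * d') (c * d' + d * c') := by
  obtain ⟨g, k, rfl, rfl⟩ := h
  obtain ⟨g', k', rfl, rfl⟩ := h'
  exact ⟨g * g' - 7 * k * k', g * k' + k * g', by ring, by ring⟩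

include hD in
/-- `z = x + y α`: from `√-7` to `T`, `T = D (α - 11)` -/
lemma SqS.sqz {x y : L} (h : SqS L (x + y / 2) (y / 2)) :
    SqZ L (21 * D) (112 * D ^ 2) (x + 11 * y) (y / D) := by
  have hD' : (D : L) ≠ 0 := by exact_mod_cast hD
  obtain ⟨g, k, h1, h2⟩ := h
  have hy : y = 4 * g * k := by linear_combination 2 * h2
  have hx : x = g ^ 2 - 7 * k ^ 2 - 2 * g * k := by
    rw [hy] at h1
    linear_combination h1
  refine ⟨g + 21 * k, 2 * k / D, ?_, ?_⟩
  · rw [hx, hy]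
    push_cast
    field_simp
    ring
  · rw [hy]
    push_cast
    field_simp
    ring

include hD in
/-- the class of `(0, 0)` is `-D √-7` times a square -/
lemma SqS.sqz0 {x y : L} (h : SqS L (7 * D * (y / 2)) (-D * (x + y / 2))) :
    SqZ L (21 * D) (112 * D ^ 2) (((112 * D ^ 2 : ℤ) : L) * (y / D))
      (((21 * D : ℤ) : L) * (y / D) - (x + 11 * y)) := by
  have hD' : (D : L) ≠ 0 := by exact_mod_cast hD
  -- `ᾱ² = (-3 - √-7) / 2`
  have h2 : SqS L (1 / 2) (3 / 2) := ⟨-3 / 2, -1 / 2, by norm_num, by norm_num⟩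
  have h3 := h.mul h2
  obtain ⟨g, k, e1, e2⟩ := h3
  refine ⟨g + 21 * k, 2 * k / D, ?_, ?_⟩
  · have e3 : (g + 21 * k) ^ 2 - ((112 * D ^ 2 : ℤ) : L) * (2 * k / D) ^ 2 =
        (g ^ 2 - 7 * k ^ 2) + 21 * (2 * g * k) := by
      push_cast
      field_simp
      ring
    rw [e3, ← e1, ← e2]
    push_cast
    field_simp
    ring
  · have e3 : 2 * (g + 21 * k) * (2 * k / D) - ((21 * D : ℤ) : L) * (2 * k / D) ^ 2 =
        2 / D * (2 * g * k) := by
      push_cast
      field_simp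
      ring
    rw [e3, ← e2]
    push_cast
    field_simp
    ring

/-- two squares -/
lemma sqS_split {s c d : L} (hs : s ^ 2 = -7) {w₁ w₂ : L} (h1 : c + d * s = w₁ ^ 2)
    (h2 : c - d * s = w₂ ^ 2) : SqS L c d := by
  have hs0 : s ≠ 0 := by
    rintro rfl
    norm_num at hs
  refine ⟨(w₁ + w₂) / 2, (w₁ - w₂) / (2 * s), ?_, ?_⟩
  · have e : ((w₁ - w₂) / (2 * s)) ^ 2 = -(w₁ - w₂) ^ 2 / 28 := by
      rw [div_pow, mul_pow, hs]
      ring
    rw [e]
    linear_combination (1 / 2 : L) * h1 + (1 / 2 : L) * h2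
  · have e : 2 * ((w₁ + w₂) / 2) * ((w₁ - w₂) / (2 * s)) = (w₁ ^ 2 - w₂ ^ 2) / (2 * s) := by
      field_simp
      ring
    rw [e, eq_div_iff (mul_ne_zero two_ne_zero hs0)]
    linear_combination h1 - h2

omit [CharZero L] in
lemma mod_eval {A B T : L} (h : T ^ 2 + A * T + B = 0) (u v G H : L) :
    (u * (G ^ 2 - B * H ^ 2) - B * v * (2 * G * H - A * H ^ 2)) +
      (u * (2 * G * H - A * H ^ 2) + v * (G ^ 2 - B * H ^ 2) - A * v * (2 * G * H - A * H ^ 2)) * T =
      (u + v * T) * (G + H * T) ^ 2 := by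
  linear_combination (-(v * (2 * G * H - A * H ^ 2)) - (u + v * T) * H ^ 2) * h

include hD in
/-- a point with given classes, in the split case: `a` is a root of `a² = a - 2`, the class is
`z₁ = x + y a`, `z₂ = x + y (1 - a)`, `X - D (a - 11) = z₁ w₁²`, `X - D (-a - 10) = z₂ w₂²` -/
lemma ptz_split {x y a X Y w₁ w₂ : L} (ha : a ^ 2 = a - 2) (hY : Y ≠ 0)
    (h0 : Y ^ 2 = X * ((X - D * (a - 11)) * (X - D * (-a - 10))))
    (h1 : X - D * (a - 11) = (x + y * a) * w₁ ^ 2)
    (h2 : X - D * (-a - 10) = (x + y * (1 - a)) * w₂ ^ 2) :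
    PtZ L (21 * D) (112 * D ^ 2) (x + 11 * y) (y / D) := by
  have hD' : (D : L) ≠ 0 := by exact_mod_cast hD
  have hs : (2 * a - 1) ^ 2 = -7 := by linear_combination 4 * ha
  have hs0 : 2 * a - 1 ≠ 0 := by
    intro h
    rw [h] at hs
    norm_num at hs
  -- `g + h e₁ = w₁`, `g + h e₂ = w₂`
  refine ⟨X, Y, w₁ - (w₁ - w₂) / (2 * a - 1) * (a - 11), (w₁ - w₂) / (D * (2 * a - 1)), hY, ?_, ?_,
    ?_⟩
  · rw [h0]
    push_cast
    linear_combination (-(D : L) ^ 2 * X) * ha
  all_goals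
    set G : L := w₁ - (w₁ - w₂) / (2 * a - 1) * (a - 11) with hG
    set H : L := (w₁ - w₂) / (D * (2 * a - 1)) with hH
    have g1 : G + H * (D * (a - 11)) = w₁ := by
      rw [hG, hH]
      field_simp
      ring
    have g2 : G + H * (D * (-a - 10)) = w₂ := by
      rw [hG, hH]
      field_simp
      ring
    have r1 : (D * (a - 11)) ^ 2 + ((21 * D : ℤ) : L) * (D * (a - 11)) + ((112 * D ^ 2 : ℤ) : L) =
        0 := by
      push_cast
      linear_combination (D : L) ^ 2 * ha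
    have r2 : (D * (-a - 10)) ^ 2 + ((21 * D : ℤ) : L) * (D * (-a - 10)) +
        ((112 * D ^ 2 : ℤ) : L) = 0 := by
      push_cast
      linear_combination (D : L) ^ 2 * ha
    have k1 := mod_eval r1 (x + 11 * y) (y / D) G H
    have k2 := mod_eval r2 (x + 11 * y) (y / D) G H
    have z1 : x + 11 * y + y / D * (D * (a - 11)) = x + y * a := by
      field_simp
      ring
    have z2 : x + 11 * y + y / D * (D * (-a - 10)) = x + y * (1 - a) := by
      field_simp
      ring
    rw [g1, z1, ← h1] at k1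
    rw [g2, z2, ← h2] at k2
  · have e0 : (D : L) * (2 * a - 1) ≠ 0 := mul_ne_zero hD' hs0
    apply mul_left_cancel₀ e0
    linear_combination (D : L) * (-a - 10) * k1 - D * (a - 11) * k2
  · have e0 : (D : L) * (2 * a - 1) ≠ 0 := mul_ne_zero hD' hs0
    apply mul_left_cancel₀ e0
    linear_combination -k1 + k2

end

end Pool.Agent.L0h4.TC
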