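import Pool.Agent.L0h4.TC.Nsq
import Pool.Agent.L0h98.BSD.TwoPrime
import Pool.Agent.L0h23.SZ.Ad
import Pool.Agent.L0h98.BSD.GoodPrime
import Pool.Agent.L0h4.TA.Mat
import Pool.Agent.Y698.SG.Cy

/-!
# The algebraic converse
-/

set_option autoImplicit false
set_option linter.unusedSectionVars false

namespace Pool.Agent.L0h4.TC

open Pool.Agent.Y698 Pool.Agent.Y698.SG Pool.Agent.L0h4.TW
open Pool.Agent.W192.HK
open NumberField IsDedekindDomain IsCyclotomicExtension.Rat WithZero WeierstrassCurve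
open Pool.Agent.H921R2.TatePole Pool.Agent.H82R3.EK
open Pool.Agent.TH841.NF.D (Sha)
open Pool.Agent.Y700 (VR)
open Pool.Agent.Y698.SG.Cv (WF)
open Pool.Agent.L0h98.BSD.Two (two_prime)

section
variable {Q P : Finset ℕ} {ϖ : ℕ → RR} {T : Finset (ℕ × Bool)}

/-- the kernel vector is locally solvable at all the primes -/
theorem loc_everywhere (h : Dt Q P ϖ) (hT : KT Q P ϖ T) {D : ℤ}
    (hD : D = ((∏ q ∈ Q ∪ P, q : ℕ) : ℤ)) (h4 : (∏ q ∈ Q ∪ P, q) % 4 = 1) (p : ℕ)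
    [hp : Fact p.Prime] :
    LocZ ℚ_[p] (21 * D) (112 * D ^ 2) ((cX (zT Q ϖ T) : ℚ_[p]) + 11 * (cY (zT Q ϖ T) : ℚ_[p]))
      ((cY (zT Q ϖ T) : ℚ_[p]) / D) := by
  classical
  have hD0 : D ≠ 0 := by
    rw [hD]
    intro h0
    have h1 : (∏ q ∈ Q ∪ P, q) = 0 := by exact_mod_cast h0
    rw [h1] at h4
    norm_num at h4
  by_cases h2 : p = 2
  · subst h2
    obtain ⟨e1, e2⟩ := zT_mod h h4 hT.sub
    exact two_prime D (by rw [hD]; omega) _ _ e1 e2
  by_cases h7 : p = 7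
  · subst h7
    exact loc_seven hT hD0
  by_cases hQ : p ∈ Q
  · exact loc_inert h h4 hT hD hD0 hQ
  by_cases hP : p ∈ P
  · exact loc_split h h4 hT hD hD0 hP
  have hpD : ¬ (p : ℤ) ∣ D := by
    rw [hD]
    intro h1
    have h2 : p ∣ ∏ q ∈ Q ∪ P, q := by exact_mod_cast h1
    obtain ⟨q, hq, hpq⟩ := (Prime.dvd_finsetProd_iff hp.out.prime _).1 h2
    have h3 := (Nat.prime_dvd_prime_iff_eq hp.out (h.od q hq).pr).1 hpq
    rw [← h3, Finset.mem_union] at hq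
    exact hq.elim hQ hP
  refine Pool.Agent.L0h98.BSD.good_prime p h2 h7 D hpD _ _ ?_
  intro h1
  have h3 : (p : ℤ) ∣ nR (zT Q ϖ T) := h1
  have h4' := h3.trans (nR_zT h h4 hT.sub)
  rw [← hD] at h4'
  exact hpD ((Nat.prime_iff_prime_int.1 hp.out).dvd_of_dvd_pow h4')

end

/-- **a nontrivial element of order two of the group of Tate and Shafarevich** -/
theorem conv {Q P : Finset ℕ} {ϖ : ℕ → RR} (h : Dt Q P ϖ) (hns : ¬ NonSing Q P ϖ) {j : ℕ}
    (hj : ∏ q ∈ Q ∪ P, q = 1 + 4 * j) (hf : Finite (AX ℚ j).toAffine.Point) :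
    ∃ x : Sha (AX ℚ j), x ≠ 0 ∧ x + x = 0 := by
  classical
  obtain ⟨T, hT⟩ := exists_KT h hns
  have h4 : (∏ q ∈ Q ∪ P, q) % 4 = 1 := by omega
  set D : ℤ := ((1 + 4 * j : ℕ) : ℤ) with hDdef
  have hD : D = ((∏ q ∈ Q ∪ P, q : ℕ) : ℤ) := by rw [hj]
  have hDZ : D ≠ 0 := by
    rw [hDdef]
    exact_mod_cast (by omega : 1 + 4 * j ≠ 0)
  have hDQ : (D : ℚ) ≠ 0 := by exact_mod_cast hDZ
  have h7D : ¬ (7 : ℤ) ∣ D := by
    intro h1
    rw [hD] at h1
    have h2 : 7 ∣ ∏ q ∈ Q ∪ P, q := by exact_mod_cast h1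
    obtain ⟨q, hq, hpq⟩ := (Prime.dvd_finsetProd_iff (show Nat.Prime 7 by norm_num).prime _).1 h2
    have h3 := (Nat.prime_dvd_prime_iff_eq (by norm_num) (h.od q hq).pr).1 hpq
    rw [← h3, Finset.mem_union] at hq
    rcases hq with hq | hq
    · exact (h.q 7 hq).ne7 rfl
    · exact (h.p 7 hq).n7 rfl
  set z := zT Q ϖ T with hz
  have hz0 : z ≠ 0 := by
    rw [hz]
    exact Finset.prod_ne_zero_iff.2 fun i hi => (h.fx.pd i (hT.sub hi)).pr.ne_zero
  have hz7 : ¬ (7 : ℤ) ∣ nR z := by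
    intro h1
    have h2 := h1.trans (nR_zT h h4 hT.sub)
    rw [← hD] at h2
    have p7 : Prime (7 : ℤ) := by
      have := Nat.prime_iff_prime_int.1 (show Nat.Prime 7 by norm_num)
      exact_mod_cast this
    exact h7D (p7.dvd_of_dvd_pow h2)
  have hb : 112 * D ^ 2 ≠ 0 := mul_ne_zero (by norm_num) (pow_ne_zero 2 hDZ)
  have hab : (21 * D) ^ 2 - 4 * (112 * D ^ 2) < 0 := by
    have : 0 < D ^ 2 := by positivity
    nlinarith
  have nb : ¬ IsSquare ((112 * D ^ 2 : ℤ) : ℚ) := by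
    rintro ⟨s, hs⟩
    have h5 : IsSquare (7 : ℚ) := by
      refine ⟨s / (4 * D), ?_⟩
      push_cast at hs
      field_simp
      linear_combination hs
    have h6 : IsSquare (7 : ℤ) := by
      have h7 : IsSquare ((7 : ℤ) : ℚ) := by exact_mod_cast h5
      exact Rat.isSquare_intCast_iff.1 h7
    obtain ⟨t, ht⟩ := h6
    have h8 : t < 3 := by nlinarith
    have h9 : -3 < t := by nlinarith
    interval_cases t <;> omega
  have nab : ¬ IsSquare (((21 * D : ℤ) : ℚ) ^ 2 - 4 * ((112 * D ^ 2 : ℤ) : ℚ)) := by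
    rintro ⟨s, hs⟩
    push_cast at hs
    have h5 : 0 < (D : ℚ) ^ 2 := by positivity
    nlinarith [mul_self_nonneg s]
  have hV := vr_AX ℚ j
  have hVD := AX_ne ℚ j
  have hfW : Finite (WF ℚ (21 * D) (112 * D ^ 2)).toAffine.Point :=
    Finite.of_equiv _ (hV.equiv hVD).toEquiv
  obtain ⟨π, hπ, h1, h2⟩ := zT_prime h hT
  obtain ⟨x, hx0, hx2⟩ := Pool.Agent.L0h23.SZ.Ad.exists_shaZ (K := ℚ) hb hab nb nab hfW
    (u := (cX z : ℚ) + 11 * (cY z : ℚ)) (v := (cY z : ℚ) / D)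
    (by
      have h5 : (nR z : ℚ) ≠ 0 := by
        have := nR_pos hz0
        exact_mod_cast this.ne'
      intro h6
      apply h5
      rw [← h6]
      unfold nR
      push_cast
      field_simp
      ring)
    (by
      intro w
      have : Fact (below w : ℕ).Prime := ⟨(below w).2⟩
      have h5 := (loc_everywhere h hT hD h4 (below w : ℕ)).map
        (Th.pth (v := w) (p := (below w : ℕ)) (nm_eq w).2.2)
      simp only [map_add, map_mul, map_div₀, map_intCast, map_ofNat] at h5 ⊢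
      exact h5)
    (n1_of hDZ hπ h1 h2) (n2_of hDZ h7D hz7)
  have hI := (Pool.Agent.Y655.XT.isoVR hV hVD).sha
  refine ⟨hI.symm x, fun h5 => hx0 ?_, ?_⟩
  · have := congrArg hI h5
    rwa [AddEquiv.apply_symm_apply, map_zero] at this
  · rw [← map_add, hx2, map_zero]

end Pool.Agent.L0h4.TC
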