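import Pool.Agent.L0h4.TC.Zd
import Pool.Agent.L0h4.TW.Val
import Pool.Agent.Y971.SG.Lq

/-!
# Squares in `ℚ_p(√-7)`, `p` odd
-/

set_option autoImplicit false
set_option linter.unusedSectionVars false

namespace Pool.Agent.L0h4.TC

open Pool.Agent.Y698 Pool.Agent.Y698.SG Pool.Agent.L0h4.TW
open Pool.Agent.W192.HK
open Pool.Agent.Y971.SG.Lq (hens)

section
variable {p : ℕ} [hp : Fact p.Prime]

/-- four is a unit -/
lemma four_unit (h2 : p % 2 = 1) : ∃ u : ℤ_[p], 4 * u = 1 := by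
  have h : IsUnit (4 : ℤ_[p]) := by
    rw [PadicInt.isUnit_iff]
    have h1 : ¬ ‖((4 : ℤ) : ℤ_[p])‖ < 1 := by
      rw [PadicInt.norm_intCast_lt_one_iff]
      intro h3
      have h4 : p ∣ 4 := by exact_mod_cast h3
      have h5 : p ∣ 2 ^ 2 := by norm_num; exact h4
      have h6 := hp.out.dvd_of_dvd_pow h5
      have h7 := (Nat.prime_dvd_prime_iff_eq hp.out Nat.prime_two).1 h6
      omega
    have h8 := PadicInt.norm_le_one (4 : ℤ_[p])
    push_cast at h1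
    exact le_antisymm h8 (not_lt.1 h1)
  obtain ⟨u, hu⟩ := h.exists_right_inv
  exact ⟨u, hu⟩

/-- principal units are squares -/
lemma psq (h2 : p % 2 = 1) (w : ℤ_[p]) : IsSquare (1 + p * w) := by
  obtain ⟨u, hu⟩ := four_unit (p := p) h2
  have h := hens p (u * w)
  have e : (1 : ℤ_[p]) + 4 * p * (u * w) = 1 + p * w := by linear_combination (p * w : ℤ_[p]) * hu
  rwa [e] at h

/-- a principal unit has a square root which is a principal unit -/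
lemma psq1 (h2 : p % 2 = 1) (w : ℤ_[p]) : ∃ m : ℤ_[p], (1 + p * m) ^ 2 = 1 + p * w := by
  obtain ⟨n, hn⟩ := psq h2 w
  have hpr : Prime (p : ℤ_[p]) := PadicInt.prime_p
  have h1 : (p : ℤ_[p]) ∣ (n - 1) * (n + 1) := ⟨w, by linear_combination -hn⟩
  rcases hpr.dvd_or_dvd h1 with ⟨m, hm⟩ | ⟨m, hm⟩
  · refine ⟨m, ?_⟩
    have e : 1 + p * m = n := by linear_combination -hm
    rw [e, hn, pow_two]
  · refine ⟨-m, ?_⟩
    have e : 1 + p * -m = -n := by linear_combination hm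
    rw [e, hn]
    ring

lemma pu_ne (w : ℤ_[p]) : (1 + p * w : ℤ_[p]) ≠ 0 := by
  intro h
  have hpr : Prime (p : ℤ_[p]) := PadicInt.prime_p
  apply hpr.not_isUnit
  exact IsUnit.of_mul_eq_one (-w) (by linear_combination -h)

/-- **principal units are squares** -/
theorem sqS_pu (h2 : p % 2 = 1) {C d C' e : ℤ_[p]} (hC : C = 1 + p * C') (hd : 7 * d ^ 2 = p * e) :
    SqS ℚ_[p] (C : ℚ_[p]) (d : ℚ_[p]) := by
  obtain ⟨m, hm⟩ := psq1 h2 (2 * C' + p * C' ^ 2 + e)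
  obtain ⟨u, hu⟩ := four_unit (p := p) h2
  obtain ⟨g, hg⟩ := psq h2 (2 * u * (C' + m))
  have hg0 : g ≠ 0 := by
    rintro rfl
    rw [mul_zero] at hg
    exact pu_ne _ hg
  have e1 : 2 * (g * g) = C + (1 + p * m) := by
    rw [← hg, hC]
    linear_combination (p * (C' + m) : ℤ_[p]) * hu
  have e2 : (1 + p * m) ^ 2 = C ^ 2 + 7 * d ^ 2 := by
    rw [hm, hC, hd]
    ring
  have f1 : 2 * ((g : ℚ_[p]) * g) = C + (1 + p * m) := by exact_mod_cast congrArg (fun t : ℤ_[p] => (t : ℚ_[p])) e1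
  have f2 : (1 + (p : ℚ_[p]) * m) ^ 2 = C ^ 2 + 7 * (d : ℚ_[p]) ^ 2 := by
    exact_mod_cast congrArg (fun t : ℤ_[p] => (t : ℚ_[p])) e2
  have g0 : (g : ℚ_[p]) ≠ 0 := fun h => hg0 (Subtype.ext h)
  refine ⟨g, d / (2 * g), ?_, ?_⟩
  · field_simp
    have e3 : (1 + (p : ℚ_[p]) * m) = 2 * (g * g) - C := by linear_combination -f1
    rw [e3] at f2
    linear_combination -f2
  · field_simp

/-- the rational coordinate -/
noncomputable def cc' (L : Type) [Field L] (z : RR) : L := (cX z : L) + (cY z : L) / 2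

/-- the coordinate of `√-7` -/
noncomputable def dd' (L : Type) [Field L] (z : RR) : L := (cY z : L) / 2

/-- the element is a square in `L(√-7)` -/
def SR (L : Type) [Field L] (z : RR) : Prop := SqS L (cc' L z) (dd' L z)

section
variable {L : Type} [Field L] [CharZero L]

omit [CharZero L] in
lemma cd_mul (h2 : (2 : L) ≠ 0) (z w : RR) :
    cc' L (z * w) = cc' L z * cc' L w - 7 * dd' L z * dd' L w ∧
    dd' L (z * w) = cc' L z * dd' L w + dd' L z * cc' L w := by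
  unfold cc' dd'
  rw [(cXY_mul z w).1, (cXY_mul z w).2]
  push_cast
  constructor
  · field_simp
    ring
  · field_simp
    ring

lemma SR.mul {z w : RR} (h : SR L z) (h' : SR L w) : SR L (z * w) := by
  unfold SR
  rw [(cd_mul two_ne_zero z w).1, (cd_mul two_ne_zero z w).2]
  exact SqS.mul h h'

lemma SR.sq (z : RR) : SR L (z * z) := by
  unfold SR
  rw [(cd_mul two_ne_zero z z).1, (cd_mul two_ne_zero z z).2]
  exact ⟨cc' L z, dd' L z, by ring, by ring⟩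

lemma cd_int (n : ℤ) : cc' L (n : RR) = n ∧ dd' L (n : RR) = 0 := by
  unfold cc' dd'
  rw [(cXY_int n).1, (cXY_int n).2]
  simp

end

section
variable {p : ℕ} [hp : Fact p.Prime]

/-- the coordinates are integral for odd `p` -/
lemma cd_coe (h2 : p % 2 = 1) (z : RR) : ∃ c d : ℤ_[p], (c : ℚ_[p]) = cc' ℚ_[p] z ∧
    (d : ℚ_[p]) = dd' ℚ_[p] z := by
  obtain ⟨u, hu⟩ := four_unit (p := p) h2
  have hu' : 4 * (u : ℚ_[p]) = 1 := by exact_mod_cast congrArg (fun t : ℤ_[p] => (t : ℚ_[p])) hu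
  have hc2 : ((2 : ℤ_[p]) : ℚ_[p]) = 2 := rfl
  refine ⟨cX z + 2 * u * cY z, 2 * u * cY z, ?_, ?_⟩
  · unfold cc'
    push_cast
    rw [hc2]
    linear_combination (cY z / 2 : ℚ_[p]) * hu'
  · unfold dd'
    push_cast
    rw [hc2]
    linear_combination (cY z / 2 : ℚ_[p]) * hu'

lemma int_unit {n : ℤ} (h : ¬ (p : ℤ) ∣ n) : ∃ u : ℤ_[p], n * u = 1 := by
  have h1 : IsUnit (n : ℤ_[p]) := by
    rw [PadicInt.isUnit_iff]
    have h1 : ¬ ‖(n : ℤ_[p])‖ < 1 := by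
      rw [PadicInt.norm_intCast_lt_one_iff]
      exact h
    exact le_antisymm (PadicInt.norm_le_one _) (not_lt.1 h1)
  obtain ⟨u, hu⟩ := h1.exists_right_inv
  exact ⟨u, hu⟩

/-- an element which is a square modulo `ρ`, with `ρ = p` or `ρ = √-7`, `p = 7`, is a square in
`ℚ_p(√-7)` -/
theorem SR_of (h2 : p % 2 = 1) {z t k ρ : RR} (hz : z = t * t + ρ * k) (ht : ¬ (p : ℤ) ∣ nR t)
    (hρ : ρ = (p : RR) ∨ (p = 7 ∧ ρ = fR)) : SR ℚ_[p] z := by
  obtain ⟨v, hv⟩ := int_unit ht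
  have hv' : (nR t : ℚ_[p]) * (v : ℚ_[p]) = 1 := by
    exact_mod_cast congrArg (fun t : ℤ_[p] => (t : ℚ_[p])) hv
  obtain ⟨w, hw⟩ : ∃ w : RR, w = k * cj t * cj t := ⟨_, rfl⟩
  obtain ⟨c, d, hc, hd⟩ := cd_coe (p := p) h2 w
  have hp20 : (2 : ℚ_[p]) ≠ 0 := two_ne_zero
  -- `z t̄ ^ 2 = N(t) ^ 2 + ρ k t̄ ^ 2`
  have e0 : z * (cj t * cj t) = ((nR t : ℤ) : RR) * ((nR t : ℤ) : RR) + ρ * w := by
    rw [← mul_cj t, hz, hw]
    ring
  have key : ∃ C D' : ℤ_[p], (C : ℚ_[p]) = cc' ℚ_[p] (z * (cj t * cj t)) * v ^ 2 ∧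
      (D' : ℚ_[p]) = dd' ℚ_[p] (z * (cj t * cj t)) * v ^ 2 ∧ (∃ C', C = 1 + p * C') ∧
      ∃ e, 7 * D' ^ 2 = p * e := by
    have a1 := (cXY_add (((nR t : ℤ) : RR) * ((nR t : ℤ) : RR)) (ρ * w))
    rw [← e0] at a1
    have a2 : cc' ℚ_[p] (z * (cj t * cj t)) = (nR t : ℚ_[p]) ^ 2 + cc' ℚ_[p] (ρ * w) ∧
        dd' ℚ_[p] (z * (cj t * cj t)) = dd' ℚ_[p] (ρ * w) := by
      have a3 := cXY_int (nR t * nR t)
      have a4 : (((nR t * nR t : ℤ)) : RR) = ((nR t : ℤ) : RR) * ((nR t : ℤ) : RR) := by push_cast; rfl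
      rw [a4] at a3
      rw [a3.1, a3.2] at a1
      unfold cc' dd'
      rw [a1.1, a1.2]
      push_cast
      constructor <;> ring
    rcases hρ with rfl | ⟨rfl, rfl⟩
    · have a5 : cc' ℚ_[p] ((p : RR) * w) = p * c ∧
          dd' ℚ_[p] ((p : RR) * w) = p * d := by
        have a6 := cd_int (L := ℚ_[p]) (p : ℤ)
        push_cast at a6
        rw [(cd_mul hp20 _ _).1, (cd_mul hp20 _ _).2, a6.1, a6.2, hc, hd]
        constructor <;> ring
      refine ⟨1 + p * (c * v ^ 2), p * (d * v ^ 2), ?_, ?_, ⟨_, rfl⟩, ⟨7 * p * (d * v ^ 2) ^ 2, by ring⟩⟩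
      · rw [a2.1, a5.1]
        push_cast
        linear_combination (-(nR t : ℚ_[p]) * v - 1) * hv'
      · rw [a2.2, a5.2]
        push_cast
        ring
    · have a5 : cc' ℚ_[7] (fR * w) = -7 * d ∧
          dd' ℚ_[7] (fR * w) = c := by
        have a6 : cc' ℚ_[7] fR = 0 ∧ dd' ℚ_[7] fR = 1 := by
          unfold cc' dd'
          rw [cXY_fR.1, cXY_fR.2]
          push_cast
          norm_num
        rw [(cd_mul hp20 _ _).1, (cd_mul hp20 _ _).2, a6.1, a6.2, hc, hd]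
        constructor <;> ring
      refine ⟨1 + (7 : ℕ) * (-(d * v ^ 2)), c * v ^ 2, ?_, ?_, ⟨_, rfl⟩,
        ⟨(c * v ^ 2) ^ 2, by push_cast; ring⟩⟩
      · have hc7 : ((7 : ℤ_[7]) : ℚ_[7]) = 7 := rfl
        rw [a2.1, a5.1]
        push_cast
        rw [hc7]
        linear_combination (-(nR t : ℚ_[7]) * v - 1) * hv'
      · rw [a2.2, a5.2]
        push_cast
        ring
  obtain ⟨C, D', hC, hD', ⟨C', hC'⟩, e, he⟩ := key
  have h3 := sqS_pu h2 hC' he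
  rw [hC, hD'] at h3
  have h4 := h3.mul (SR.sq (L := ℚ_[p]) t)
  unfold SR
  have b1 := cd_mul (L := ℚ_[p]) hp20 (z * (cj t * cj t)) (t * t)
  have b2 : z * (cj t * cj t) * (t * t) = z * ((nR t * nR t : ℤ) : RR) := by
    push_cast
    rw [← mul_cj t]
    ring
  rw [b2] at b1
  have b3 := cd_mul (L := ℚ_[p]) hp20 z ((nR t * nR t : ℤ) : RR)
  rw [(cd_int (L := ℚ_[p]) _).1, (cd_int (L := ℚ_[p]) _).2] at b3
  push_cast at b3 b1
  have hvv : (nR t : ℚ_[p]) * nR t * v ^ 2 = 1 := by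
    linear_combination ((nR t : ℚ_[p]) * v + 1) * hv'
  have c1 : cc' ℚ_[p] z = cc' ℚ_[p] (z * (cj t * cj t)) * v ^ 2 * cc' ℚ_[p] (t * t) -
      7 * (dd' ℚ_[p] (z * (cj t * cj t)) * v ^ 2) * dd' ℚ_[p] (t * t) := by
    have b4 := b1.1
    rw [b3.1] at b4
    linear_combination (-cc' ℚ_[p] z) * hvv + (v : ℚ_[p]) ^ 2 * b4
  have c2 : dd' ℚ_[p] z = cc' ℚ_[p] (z * (cj t * cj t)) * v ^ 2 * dd' ℚ_[p] (t * t) +
      dd' ℚ_[p] (z * (cj t * cj t)) * v ^ 2 * cc' ℚ_[p] (t * t) := by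
    have b4 := b1.2
    rw [b3.2] at b4
    linear_combination (-dd' ℚ_[p] z) * hvv + (v : ℚ_[p]) ^ 2 * b4
  rw [c1, c2]
  exact h4

end

end

end Pool.Agent.L0h4.TC
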