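import Pool.Agent.L0h4.TD.Datx

/-!
# A kernel vector of a singular matrix gives a set of primes with prescribed symbols
-/

set_option autoImplicit false
set_option linter.unusedSectionVars false

namespace Pool.Agent.L0h4.TC

open Pool.Agent.Y698 Pool.Agent.Y698.SG Pool.Agent.L0h4.TW
open Pool.Agent.W192.HK

section
variable {Q P : Finset ℕ} {ϖ : ℕ → RR}

lemma zmod2 (x : ZMod 2) : x = 0 ∨ x = 1 := by
  fin_cases x
  · exact Or.inl rfl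
  · exact Or.inr rfl

/-- the kernel vector -/
theorem exists_T (h : Dt Q P ϖ) (hns : ¬ NonSing Q P ϖ) : ∃ T ⊆ ix Q P, T.Nonempty ∧
    (∀ i ∈ ix Q P, i ∉ T → ∑ j ∈ T, mr (pfx Q ϖ) j i = 0) ∧
    (∀ i ∈ T, mc (pfx Q ϖ) i + nt (pf7 Q ϖ i) + ∑ j ∈ ix Q P \ T, mr (pfx Q ϖ) j i = 0) := by
  classical
  have hrec : Recip (fun i => nt (pf7 Q ϖ i)) (mr (pfx Q ϖ)) (ix Q P) := by
    intro i hi j hj hij
    have := h.rec7 i (Finset.mem_insert_of_mem hi) j (Finset.mem_insert_of_mem hj) hij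
    unfold mm at this
    rw [h.pf hi, h.pf hj] at this
    unfold mr
    beta_reduce
    rw [h.pf hi, h.pf hj]
    exact this
  have hg : ¬ gd (fun i => mc (pfx Q ϖ) i + nt (pf7 Q ϖ i)) (fun i j => mr (pfx Q ϖ) j i)
      (ix Q P) ≠ 0 := by
    rw [gd_transp hrec h.ntsum]
    exact hns
  rw [gd_ker] at hg
  push Not at hg
  obtain ⟨x, hx, i₀, hi₀, hx₀⟩ := hg
  set T : Finset (ℕ × Bool) := (ix Q P).filter fun i => x i = 1 with hT
  have hTs : T ⊆ ix Q P := Finset.filter_subset _ _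
  have hin : ∀ i ∈ T, x i = 1 := fun i hi => (Finset.mem_filter.1 hi).2
  have hout : ∀ i ∈ ix Q P, i ∉ T → x i = 0 := by
    intro i hi hiT
    rcases zmod2 (x i) with h1 | h1
    · exact h1
    · exact absurd (Finset.mem_filter.2 ⟨hi, h1⟩) hiT
  refine ⟨T, hTs, ⟨i₀, ?_⟩, ?_, ?_⟩
  · rcases zmod2 (x i₀) with h1 | h1
    · exact absurd h1 hx₀
    · exact Finset.mem_filter.2 ⟨hi₀, h1⟩
  · intro i hi hiT
    have h1 := hx i hi
    rw [hout i hi hiT, mul_zero, zero_add, ← Finset.sum_sdiff hTs] at h1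
    have e1 : ∑ j ∈ ix Q P \ T, mr (pfx Q ϖ) j i * (0 + x j) = 0 := by
      refine Finset.sum_eq_zero fun j hj => ?_
      rw [hout j (Finset.mem_sdiff.1 hj).1 (Finset.mem_sdiff.1 hj).2, add_zero, mul_zero]
    rw [e1, zero_add] at h1
    rw [← h1]
    refine Finset.sum_congr rfl fun j hj => ?_
    rw [hin j hj, zero_add, mul_one]
  · intro i hiT
    have h1 := hx i (hTs hiT)
    rw [hin i hiT, mul_one, ← Finset.sum_sdiff hTs] at h1
    have e1 : ∑ j ∈ T, mr (pfx Q ϖ) j i * (1 + x j) = 0 := by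
      refine Finset.sum_eq_zero fun j hj => ?_
      rw [hin j hj]
      have : (1 + 1 : ZMod 2) = 0 := rfl
      rw [this, mul_zero]
    rw [e1, add_zero] at h1
    rw [← h1]
    congr 1
    refine Finset.sum_congr rfl fun j hj => ?_
    rw [hout j (Finset.mem_sdiff.1 hj).1 (Finset.mem_sdiff.1 hj).2, add_zero, mul_one]

/-- the product over the set -/
noncomputable def zT (Q : Finset ℕ) (ϖ : ℕ → RR) (T : Finset (ℕ × Bool)) : RR := ∏ i ∈ T, pfx Q ϖ i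

lemma sy_zT (h : Dt Q P ϖ) {U : Finset (ℕ × Bool)} (hU : U ⊆ ix Q P) {i : ℕ × Bool}
    (hi : i ∈ ix Q P) (hiU : i ∉ U) :
    (sy (pfx Q ϖ i) (zT Q ϖ U) = 1 ∨ sy (pfx Q ϖ i) (zT Q ϖ U) = -1) ∧
    lg (sy (pfx Q ϖ i) (zT Q ϖ U)) = ∑ j ∈ U, mr (pfx Q ϖ) j i := by
  have h1 := sgn_prod (s := U) (f := fun j => sy (pfx Q ϖ i) (pfx Q ϖ j)) fun j hj =>
    sy_sgn (h.fx.ne j (hU hj) i hi (fun h3 => hiU (h3 ▸ hj)))
  unfold zT
  rw [TD.sy_prodX (h.fx.pd i hi).pr]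
  exact h1

lemma sy_mfR (h : Dt Q P ϖ) {i : ℕ × Bool} (hi : i ∈ ix Q P) :
    (sy (pfx Q ϖ i) (-fR) = 1 ∨ sy (pfx Q ϖ i) (-fR) = -1) ∧
    lg (sy (pfx Q ϖ i) (-fR)) = mc (pfx Q ϖ) i + nt (pf7 Q ϖ i) := by
  have h1 := h.rec7 i (Finset.mem_insert_of_mem hi) (7, false) (Finset.mem_insert_self _ _)
    (fun h2 => h.ix7 (h2 ▸ hi))
  have h0 := h.ne (Finset.mem_insert_self _ _) (Finset.mem_insert_of_mem hi)
    (fun h2 => h.ix7 (h2 ▸ hi))
  rw [pf7_o, h.pf hi] at h0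
  refine ⟨sy_sgn h0, ?_⟩
  rw [pf7_o, nt_D1 D1_seven] at h1
  unfold mm at h1
  rw [pf7_o, sy_seven, h.pf hi] at h1
  rw [h.pf hi]
  unfold mc
  have h3 : (if 7 % 4 = 3 then (1 : ZMod 2) else 0) = 1 := rfl
  rw [h3, mul_one] at h1
  have h4 := Pool.Agent.L0h4.TW.two_self (lg (e7 (pfx Q ϖ i)))
  linear_combination h1 - h4

lemma lg_zero {z : ℂ} (h : z = 1 ∨ z = -1) (h0 : lg z = 0) : z = 1 := by
  rcases h with h | h
  · exact h
  · rw [h, lg_neg_one] at h0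
    exact absurd h0 one_ne_zero

/-- the symbols -/
structure KT (Q P : Finset ℕ) (ϖ : ℕ → RR) (T : Finset (ℕ × Bool)) : Prop where
  sub : T ⊆ ix Q P
  ne : T.Nonempty
  out : ∀ i ∈ ix Q P, i ∉ T → sy (pfx Q ϖ i) (zT Q ϖ T) = 1
  inn : ∀ i ∈ T, sy (pfx Q ϖ i) (-fR * zT Q ϖ (ix Q P \ T)) = 1
  sev : e7 (zT Q ϖ T) = 1

theorem exists_KT (h : Dt Q P ϖ) (hns : ¬ NonSing Q P ϖ) : ∃ T, KT Q P ϖ T := by
  classical
  obtain ⟨T, h1, h2, h3, h4⟩ := exists_T h hns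
  refine ⟨T, h1, h2, ?_, ?_, ?_⟩
  · intro i hi hiT
    obtain ⟨a1, a2⟩ := sy_zT h h1 hi hiT
    exact lg_zero a1 (by rw [a2]; exact h3 i hi hiT)
  · intro i hi
    have hi' : i ∉ ix Q P \ T := fun h5 => (Finset.mem_sdiff.1 h5).2 hi
    obtain ⟨a1, a2⟩ := sy_zT h Finset.sdiff_subset (h1 hi) hi'
    obtain ⟨b1, b2⟩ := sy_mfR h (h1 hi)
    rw [sy_mul' (h.fx.pd i (h1 hi)).pr]
    have h5 := lg_mul b1 a1
    rw [a2, b2, h4 i hi] at h5
    exact lg_zero (sgn_mul b1 a1) h5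
  · -- the sum of all the equations
    have hrec : ∀ i ∈ ix Q P, ∀ j ∈ ix Q P, i ≠ j → mr (pfx Q ϖ) j i =
        mr (pfx Q ϖ) i j + nt (pf7 Q ϖ i) * nt (pf7 Q ϖ j) := by
      intro i hi j hj hij
      have := h.rec7 i (Finset.mem_insert_of_mem hi) j (Finset.mem_insert_of_mem hj) hij
      unfold mm at this
      rw [h.pf hi, h.pf hj] at this
      unfold mr
      rw [h.pf hi, h.pf hj]
      have h5 := Pool.Agent.L0h4.TW.two_self (lg (sy (pfx Q ϖ j) (pfx Q ϖ i)))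
      linear_combination this - h5
    have s1 : ∑ i ∈ T, (mc (pfx Q ϖ) i + nt (pf7 Q ϖ i)) +
        ∑ i ∈ T, ∑ j ∈ ix Q P \ T, mr (pfx Q ϖ) j i = 0 := by
      rw [← Finset.sum_add_distrib]
      exact Finset.sum_eq_zero h4
    have s2 : ∑ i ∈ ix Q P \ T, ∑ j ∈ T, mr (pfx Q ϖ) j i = 0 :=
      Finset.sum_eq_zero fun i hi => h3 i (Finset.mem_sdiff.1 hi).1 (Finset.mem_sdiff.1 hi).2
    have s3 : ∑ i ∈ T, ∑ j ∈ ix Q P \ T, mr (pfx Q ϖ) j i =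
        ∑ i ∈ T, ∑ j ∈ ix Q P \ T, mr (pfx Q ϖ) i j +
          (∑ i ∈ T, nt (pf7 Q ϖ i)) * ∑ j ∈ ix Q P \ T, nt (pf7 Q ϖ j) := by
      rw [Finset.sum_mul_sum, ← Finset.sum_add_distrib]
      refine Finset.sum_congr rfl fun i hi => ?_
      rw [← Finset.sum_add_distrib]
      refine Finset.sum_congr rfl fun j hj => ?_
      exact hrec i (h1 hi) j (Finset.mem_sdiff.1 hj).1 fun h5 =>
        (Finset.mem_sdiff.1 hj).2 (h5 ▸ hi)
    have s4 : ∑ i ∈ T, ∑ j ∈ ix Q P \ T, mr (pfx Q ϖ) i j = 0 := by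
      rw [Finset.sum_comm]
      exact s2
    have s5 : ∑ j ∈ ix Q P \ T, nt (pf7 Q ϖ j) = ∑ i ∈ T, nt (pf7 Q ϖ i) := by
      have h5 := h.ntsum
      rw [← Finset.sum_sdiff h1] at h5
      have h6 := Pool.Agent.L0h4.TW.two_self (∑ i ∈ T, nt (pf7 Q ϖ i))
      linear_combination h5 - h6
    have s6 : (∑ i ∈ T, nt (pf7 Q ϖ i)) * (∑ i ∈ T, nt (pf7 Q ϖ i)) =
        ∑ i ∈ T, nt (pf7 Q ϖ i) := by
      rcases zmod2 (∑ i ∈ T, nt (pf7 Q ϖ i)) with h5 | h5 <;> rw [h5] <;> rfl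
    have s7 : ∑ i ∈ T, mc (pfx Q ϖ) i = 0 := by
      rw [s3, s4, s5, s6, Finset.sum_add_distrib] at s1
      have h6 := Pool.Agent.L0h4.TW.two_self (∑ i ∈ T, nt (pf7 Q ϖ i))
      linear_combination s1 - h6
    have s8 : ∀ j ∈ T, e7 (pfx Q ϖ j) = 1 ∨ e7 (pfx Q ϖ j) = -1 := by
      intro j hj
      have h0 := h.ne (Finset.mem_insert_of_mem (h1 hj)) (Finset.mem_insert_self _ _)
        (fun h2 => h.ix7 (h2 ▸ (h1 hj)))
      rw [pf7_o, h.pf (h1 hj)] at h0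
      rw [← sy_seven]
      exact sy_sgn h0
    have s9 := sgn_prod (s := T) (f := fun j => e7 (pfx Q ϖ j)) s8
    have s10 : e7 (zT Q ϖ T) = ∏ j ∈ T, e7 (pfx Q ϖ j) := by
      unfold zT
      have e1 : ∀ x, e7 x = sy (-fR) x := fun x => (sy_seven x).symm
      simp only [e1]
      exact TD.sy_prodX (prime_of_nR (by norm_num) D1_seven.nR) T _
    rw [s10]
    refine lg_zero s9.1 ?_
    rw [s9.2]
    exact s7

end

end Pool.Agent.L0h4.TC
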