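import Pool.Agent.L0h4.TC.Spl
import Pool.Agent.L0h4.TC.Ker

/-!
# Local points at the primes dividing `7 D`
-/

set_option autoImplicit false
set_option linter.unusedSectionVars false

namespace Pool.Agent.L0h4.TC

open Pool.Agent.Y698 Pool.Agent.Y698.SG Pool.Agent.L0h4.TW
open Pool.Agent.W192.HK
open Pool.Agent.Y279.SG (nR_int dec cXY_cj)

section
variable {Q P : Finset ℕ} {ϖ : ℕ → RR} {T : Finset (ℕ × Bool)} {D : ℤ}

lemma zT_mul (h : Dt Q P ϖ) (h4 : (∏ q ∈ Q ∪ P, q) % 4 = 1) (hT : T ⊆ ix Q P) :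
    zT Q ϖ (ix Q P \ T) * zT Q ϖ T = ((∏ q ∈ Q ∪ P, q : ℕ) : RR) := by
  unfold zT
  rw [Finset.prod_sdiff hT, h.prod_pfx h4]

/-- the class of `(0, 0)` in terms of `√-7` -/
lemma SR_zero {L : Type} [Field L] [CharZero L] {z z' : RR} {D : ℤ} (hz : z' * z = (D : RR))
    (h : SR L (-fR * z')) : SqS L (7 * D * ((cY z : L) / 2)) (-D * ((cX z : L) + (cY z : L) / 2)) := by
  have h1 := (SR.sq (L := L) z).mul h
  have e1 : z * z * (-fR * z') = ((-1 : ℤ) : RR) * (((D : ℤ) : RR) * (fR * z)) := by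
    rw [← hz]
    push_cast
    ring
  rw [e1] at h1
  unfold SR at h1
  have h20 : (2 : L) ≠ 0 := two_ne_zero
  have a1 := cd_mul (L := L) h20 ((-1 : ℤ) : RR) (((D : ℤ) : RR) * (fR * z))
  have a2 := cd_mul (L := L) h20 ((D : ℤ) : RR) (fR * z)
  have a3 := cd_mul (L := L) h20 fR z
  have a6 : cc' L fR = 0 ∧ dd' L fR = 1 := by
    unfold cc' dd'
    rw [cXY_fR.1, cXY_fR.2]
    push_cast
    norm_num
  rw [a6.1, a6.2] at a3
  rw [(cd_int (L := L) D).1, (cd_int (L := L) D).2, a3.1, a3.2] at a2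
  rw [(cd_int (L := L) (-1)).1, (cd_int (L := L) (-1)).2, a2.1, a2.2] at a1
  rw [a1.1, a1.2] at h1
  unfold cc' dd' at h1
  push_cast at h1
  convert h1 using 1
  · ring
  · ring

/-- the prime seven -/
theorem loc_seven (hT : KT Q P ϖ T) (hD : D ≠ 0) [Fact (Nat.Prime 7)] :
    LocZ ℚ_[7] (21 * D) (112 * D ^ 2) ((cX (zT Q ϖ T) : ℚ_[7]) + 11 * (cY (zT Q ϖ T) : ℚ_[7]))
      ((cY (zT Q ϖ T) : ℚ_[7]) / D) := by
  left
  set z := zT Q ϖ T with hz
  have h1 := hT.sev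
  rw [← hz] at h1
  unfold e7 at h1
  have h2 : quadraticChar (ZMod 7) (r7 z) = 1 := by exact_mod_cast h1
  have h0 : r7 z ≠ 0 := by
    intro h0
    rw [h0, quadraticChar_zero] at h2
    exact zero_ne_one h2
  rw [quadraticChar_one_iff_isSquare h0] at h2
  obtain ⟨s, hs⟩ := h2
  obtain ⟨t, rfl⟩ := ZMod.intCast_surjective s
  have h3 : z - ((t : ℤ) : RR) * ((t : ℤ) : RR) ∈ sp fR := by
    rw [← r7_eq_zero, map_sub, map_mul, hs, map_intCast, sub_self]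
  rw [Ideal.mem_span_singleton] at h3
  obtain ⟨k, hk⟩ := h3
  have ht : ¬ ((7 : ℕ) : ℤ) ∣ nR ((t : ℤ) : RR) := by
    rw [nR_int]
    intro h5
    have h6 : Prime ((7 : ℕ) : ℤ) := Nat.prime_iff_prime_int.1 (by norm_num)
    have h7 := h6.dvd_of_dvd_pow h5
    apply h0
    rw [hs, (ZMod.intCast_zmod_eq_zero_iff_dvd t 7).2 h7, mul_zero]
  have h4 := SR_of (p := 7) (by norm_num) (z := z) (t := ((t : ℤ) : RR)) (k := k) (ρ := fR)
    (by linear_combination hk) ht (Or.inr ⟨rfl, rfl⟩)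
  exact SqS.sqz hD h4

/-- the inert primes -/
theorem loc_inert (h : Dt Q P ϖ) (h4 : (∏ q ∈ Q ∪ P, q) % 4 = 1) (hT : KT Q P ϖ T)
    (hD : D = ((∏ q ∈ Q ∪ P, q : ℕ) : ℤ)) (hD0 : D ≠ 0) {q : ℕ} [Fact q.Prime] (hq : q ∈ Q) :
    LocZ ℚ_[q] (21 * D) (112 * D ^ 2) ((cX (zT Q ϖ T) : ℚ_[q]) + 11 * (cY (zT Q ϖ T) : ℚ_[q]))
      ((cY (zT Q ϖ T) : ℚ_[q]) / D) := by
  classical
  have hin := h.q q hq
  have hi : (q, false) ∈ ix Q P := TW.mem_ix.2 (Or.inl ⟨hq, rfl⟩)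
  have hk := h.kind hi
  have hsp : sp (pfx Q ϖ (q, false)) = sp (q : RR) := by
    rcases hk with hk | hk
    · exact hk.2.sp
    · exact absurd hk.1 (h.disj hq)
  have key : ∀ x : RR, sy (pfx Q ϖ (q, false)) x = 1 → SR ℚ_[q] x := by
    intro x hx
    rw [sy_congr hsp] at hx
    have h1 : x ∉ sp (q : RR) := by
      intro h
      unfold sy at hx
      rw [if_pos h] at hx
      exact zero_ne_one hx
    have h3 : IsSquare (Ideal.Quotient.mk (sp (q : RR)) x) := by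
      by_contra h
      unfold sy at hx
      rw [if_neg h1, if_neg h] at hx
      norm_num at hx
    obtain ⟨t', ht'⟩ := h3
    obtain ⟨t, rfl⟩ := Ideal.Quotient.mk_surjective t'
    rw [← map_mul, Ideal.Quotient.eq] at ht'
    have ht : ¬ (q : ℤ) ∣ nR t := by
      rw [← hin.dvd]
      intro h5
      apply h1
      have h6 : x = (x - t * t) + t * t := by ring
      rw [h6]
      exact Ideal.add_mem _ ht' (Ideal.mul_mem_left _ _ h5)
    rw [Ideal.mem_span_singleton] at ht'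
    obtain ⟨k, hk⟩ := ht'
    exact SR_of hin.odd (z := x) (t := t) (k := k) (ρ := (q : RR)) (by linear_combination hk) ht
      (Or.inl rfl)
  by_cases hiT : (q, false) ∈ T
  · right
    left
    refine SqS.sqz0 hD0 ?_
    refine SR_zero (z' := zT Q ϖ (ix Q P \ T)) ?_ (key _ (hT.inn _ hiT))
    rw [zT_mul h h4 hT.sub, hD]
    push_cast
    rfl
  · left
    exact SqS.sqz hD0 (key _ (hT.out _ hi hiT))

/-! ### split primes -/

lemma ev_cj {S : Type*} [CommRing S] {a b : S} (ha : a ^ 2 = a - 2) (hb : b ^ 2 = b - 2)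
    (hab : a + b = 1) (x : RR) : ev a ha (cj x) = ev b hb x := by
  rw [ev_apply, ev_apply, (cXY_cj x).1, (cXY_cj x).2]
  push_cast
  linear_combination -(cY x : S) * hab

lemma ev_sg {S : Type*} [CommRing S] {a : S} (ha : a ^ 2 = a - 2) (p : ℕ) {x : RR}
    (h : ev a ha x = 0) : ev a ha (sg p * x) = 0 := by
  rw [map_mul, h, mul_zero]

/-- the root attached to `ϖ p` -/
lemma exists_A (h : Dt Q P ϖ) {p : ℕ} [hp : Fact p.Prime] (hP : p ∈ P) :
    ∃ (A : ℤ_[p]) (hA : A ^ 2 = A - 2) (hB : (1 - A) ^ 2 = (1 - A) - 2),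
      PadicInt.toZMod (ev A hA (pfx Q ϖ (p, false))) = 0 ∧
      PadicInt.toZMod (ev (1 - A) hB (pfx Q ϖ (p, true))) = 0 := by
  have hd := h.d1 hP
  have hnQ : p ∉ Q := fun h1 => h.disj h1 hP
  have hY := not_dvd_cY hp.out hd.nR
  have hY0 : ((cY (ϖ p) : ℤ) : ZMod p) ≠ 0 := by
    intro h0
    exact hY ((ZMod.intCast_zmod_eq_zero_iff_dvd _ _).1 h0)
  have hN : ((cX (ϖ p) : ℤ) : ZMod p) ^ 2 + (cX (ϖ p) : ℤ) * (cY (ϖ p) : ℤ) +
      2 * ((cY (ϖ p) : ℤ) : ZMod p) ^ 2 = 0 := by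
    have h1 := congrArg (fun t : ℤ => (t : ZMod p)) hd.nR
    unfold nR at h1
    push_cast at h1
    rw [ZMod.natCast_self] at h1
    exact h1
  set a₀ : ZMod p := -((cX (ϖ p) : ℤ) : ZMod p) / ((cY (ϖ p) : ℤ) : ZMod p) with ha₀
  have h1 : a₀ ^ 2 = a₀ - 2 := by
    rw [ha₀]
    field_simp
    linear_combination hN
  have h7 : (7 : ZMod p) ≠ 0 := by
    intro h0
    have h3 : ((7 : ℕ) : ZMod p) = 0 := by exact_mod_cast h0
    rw [ZMod.natCast_eq_zero_iff] at h3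
    exact (h.p p hP).n7 ((Nat.prime_dvd_prime_iff_eq hp.out (by norm_num)).1 h3)
  have h3 : 2 * a₀ - 1 ≠ 0 := by
    intro h4
    apply h7
    linear_combination -(2 * a₀ - 1) * h4 + 4 * h1
  obtain ⟨A, hA, hA0⟩ := hens_root (p := p) hd.odd h1 h3
  have hB : (1 - A) ^ 2 = (1 - A) - 2 := by linear_combination hA
  have key : PadicInt.toZMod (ev A hA (ϖ p)) = 0 := by
    rw [ev_apply, map_add, map_mul, map_intCast, map_intCast, hA0, ha₀]
    field_simp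
    ring
  refine ⟨A, hA, hB, ?_, ?_⟩
  · unfold pfx
    rw [if_neg hnQ, if_neg (by simp)]
    exact key
  · unfold pfx
    rw [if_neg hnQ, if_pos rfl, map_mul, ev_cj hB hA (by ring), map_mul, key, mul_zero]

/-- the mixed case -/
lemma mix {L : Type} [Field L] [CharZero L] {D : ℤ} (hD : D ≠ 0) {a x y m n t r r' : L}
    (ha : a ^ 2 = a - 2) (ht : t ≠ 0) (hm : m ≠ 0) (hr : r ≠ 0) (hr' : r' ≠ 0)
    (h1 : x + y * a = m * m) (h2 : D * (2 * a - 1) = n * n * (x + y * (1 - a)))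
    (e1 : t ^ 2 + D * (2 * a - 1) = D * (2 * a - 1) * (r * r))
    (e2 : t ^ 2 + D * (2 * a - 1) * (1 - a) ^ 4 = D * (2 * a - 1) * (1 - a) ^ 4 * (r' * r')) :
    PtZ L (21 * D) (112 * D ^ 2) (x + 11 * y) (y / D) := by
  have hD' : (D : L) ≠ 0 := by exact_mod_cast hD
  have hs : (2 * a - 1) ^ 2 = -7 := by linear_combination 4 * ha
  have hs0 : 2 * a - 1 ≠ 0 := by
    intro h
    rw [h] at hs
    norm_num at hs
  have ha1 : 1 - a ≠ 0 := by
    intro h
    have h3 : a = 1 := by linear_combination -h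
    rw [h3] at ha
    norm_num at ha
  have e3 : (2 * a - 1) * (1 - a) ^ 4 = a - 11 := by
    have q1 : (1 - a) ^ 2 = -a - 1 := by linear_combination ha
    have q2 : (1 - a) ^ 4 = 3 * a - 1 := by
      have : (1 - a) ^ 4 = ((1 - a) ^ 2) ^ 2 := by ring
      rw [this, q1]
      linear_combination ha
    rw [q2]
    linear_combination 6 * ha
  have e4 : (D : L) * (a - 11) + t ^ 2 = D * (2 * a - 1) * (1 - a) ^ 4 * (r' * r') := by
    rw [← e2, mul_assoc, e3]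
    ring
  refine ptz_split hD (a := a) (X := D * (a - 11) + t ^ 2)
    (Y := D * (2 * a - 1) * (1 - a) ^ 2 * r' * t * r) (w₁ := t / m) (w₂ := n * r) ha ?_ ?_ ?_ ?_
  · exact mul_ne_zero (mul_ne_zero (mul_ne_zero (mul_ne_zero (mul_ne_zero hD' hs0)
      (pow_ne_zero 2 ha1)) hr') ht) hr
  · have e5 : (D : L) * (a - 11) + t ^ 2 - D * (a - 11) = t ^ 2 := by ring
    have e6 : (D : L) * (a - 11) + t ^ 2 - D * (-a - 10) = D * (2 * a - 1) * (r * r) := by
      rw [← e1]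
      ring
    rw [e5, e6, e4]
    ring
  · rw [h1]
    field_simp
    ring
  · have e6 : (D : L) * (a - 11) + t ^ 2 - D * (-a - 10) = D * (2 * a - 1) * (r * r) := by
      rw [← e1]
      ring
    rw [e6, h2]
    ring

/-- the split primes -/
theorem loc_split (h : Dt Q P ϖ) (h4 : (∏ q ∈ Q ∪ P, q) % 4 = 1) (hT : KT Q P ϖ T)
    (hD : D = ((∏ q ∈ Q ∪ P, q : ℕ) : ℤ)) (hD0 : D ≠ 0) {p : ℕ} [hp : Fact p.Prime] (hP : p ∈ P) :
    LocZ ℚ_[p] (21 * D) (112 * D ^ 2) ((cX (zT Q ϖ T) : ℚ_[p]) + 11 * (cY (zT Q ϖ T) : ℚ_[p]))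
      ((cY (zT Q ϖ T) : ℚ_[p]) / D) := by
  classical
  have hD' : (D : ℚ_[p]) ≠ 0 := by exact_mod_cast hD0
  have h2 := (h.p p hP).odd
  obtain ⟨A, hA, hB, e1, e2⟩ := exists_A h hP
  have hi : (p, false) ∈ ix Q P := TW.mem_ix.2 (Or.inr (Or.inl ⟨hP, rfl⟩))
  have hj : (p, true) ∈ ix Q P := TW.mem_ix.2 (Or.inr (Or.inr ⟨hP, rfl⟩))
  have pi := (h.fx.pd _ hi).pr
  have pj := (h.fx.pd _ hj).pr
  set z := zT Q ϖ T with hz
  set z' := zT Q ϖ (ix Q P \ T) with hz'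
  have hzz : z' * z = (D : RR) := by
    rw [hz, hz', zT_mul h h4 hT.sub, hD]
    push_cast
    rfl
  -- the coordinates in `ℚ_p`
  have hAq : ((A : ℚ_[p])) ^ 2 = (A : ℚ_[p]) - 2 := by
    have := congrArg (fun t : ℤ_[p] => (t : ℚ_[p])) hA
    push_cast at this
    exact this
  have hs : (2 * (A : ℚ_[p]) - 1) ^ 2 = -7 := by linear_combination 4 * hAq
  have ez : ∀ x : RR, ((ev A hA x : ℤ_[p]) : ℚ_[p]) = cX x + cY x * (A : ℚ_[p]) := by
    intro x
    rw [ev_apply]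
    push_cast
    rfl
  have ez' : ∀ x : RR, ((ev (1 - A) hB x : ℤ_[p]) : ℚ_[p]) = cX x + cY x * (1 - (A : ℚ_[p])) := by
    intro x
    rw [ev_apply]
    push_cast
    rfl
  have efR : ev A hA fR = 2 * A - 1 ∧ ev (1 - A) hB fR = -(2 * A - 1) := by
    rw [ev_apply, ev_apply, cXY_fR.1, cXY_fR.2]
    push_cast
    exact ⟨by ring, by ring⟩
  have hm7 : (7 : ℚ_[p]) ≠ 0 := by norm_num
  have coe_ne : ∀ m : ℤ_[p], m ≠ 0 → (m : ℚ_[p]) ≠ 0 := fun m hm h => hm (Subtype.ext h)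
  set a : ℚ_[p] := (A : ℚ_[p]) with ha
  set x : ℚ_[p] := (cX z : ℚ_[p]) with hx
  set y : ℚ_[p] := (cY z : ℚ_[p]) with hy
  -- the perturbations
  have hprod : ∃ D' : ℤ, D = p * D' ∧ ¬ (p : ℤ) ∣ D' := by
    have hmem : p ∈ Q ∪ P := Finset.mem_union_right _ hP
    refine ⟨((∏ q ∈ (Q ∪ P).erase p, q : ℕ) : ℤ), ?_, ?_⟩
    · rw [hD, ← Finset.mul_prod_erase _ _ hmem]
      push_cast
      rfl
    · intro hdv
      have h5 : p ∣ ∏ q ∈ (Q ∪ P).erase p, q := by exact_mod_cast hdv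
      obtain ⟨q, hq, hpq⟩ := (Prime.dvd_finsetProd_iff hp.out.prime _).1 h5
      rw [Finset.mem_erase] at hq
      exact hq.1 ((Nat.prime_dvd_prime_iff_eq hp.out (h.od q hq.2).pr).1 hpq).symm
  obtain ⟨D', hDD, hD'u⟩ := hprod
  obtain ⟨dv, hdv⟩ := int_unit hD'u
  have hunit7 : ∃ u : ℤ_[p], (7 : ℤ_[p]) * u = 1 := by
    have h5 : ¬ (p : ℤ) ∣ 7 := by
      intro h6
      have h7 : p ∣ 7 := by exact_mod_cast h6
      exact (h.p p hP).n7 ((Nat.prime_dvd_prime_iff_eq hp.out (by norm_num)).1 h7)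
    have := int_unit h5
    push_cast at this
    exact this
  obtain ⟨v7, hv7⟩ := hunit7
  obtain ⟨u4, hu4⟩ := four_unit (p := p) h2
  -- for a unit `c` with inverse `c'`
  have hsq : ∀ c c' : ℤ_[p], c * c' = 1 → ∃ r : ℚ_[p], r ≠ 0 ∧
      (p : ℚ_[p]) ^ 2 + D * c = D * c * (r * r) := by
    intro c c' hc
    obtain ⟨r, hr⟩ := psq h2 (c' * dv)
    have hr0 : r ≠ 0 := by
      rintro rfl
      rw [mul_zero] at hr
      exact pu_ne _ hr
    refine ⟨r, coe_ne r hr0, ?_⟩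
    have h5 : (p : ℤ_[p]) ^ 2 + D * c = D * c * (r * r) := by
      rw [← hr, hDD]
      push_cast
      linear_combination (-(p : ℤ_[p]) ^ 2) * hdv - ((p : ℤ_[p]) ^ 2 * D' * dv) * hc
    have h6 := congrArg (fun t : ℤ_[p] => (t : ℚ_[p])) h5
    push_cast at h6
    exact h6
  -- the two conditions
  have ci : (∃ m : ℚ_[p], m ≠ 0 ∧ x + y * a = m * m) ∨
      (∃ n : ℚ_[p], n ≠ 0 ∧ -(D * (2 * a - 1)) = n * n * (x + y * a)) := by
    by_cases hiT : (p, false) ∈ T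
    · right
      obtain ⟨m, hm, hm0⟩ := ev_sy h2 hA pi e1 (hT.inn _ hiT)
      refine ⟨m, coe_ne m hm0, ?_⟩
      have h5 := congrArg (fun t : ℤ_[p] => (t : ℚ_[p])) hm
      have h6 := congrArg (fun t : RR => ((ev A hA t : ℤ_[p]) : ℚ_[p])) hzz
      simp only [map_mul, map_neg, map_intCast, efR.1] at h5 h6
      push_cast at h5 h6
      have h7 := ez z
      have hc2 : ((2 : ℤ_[p]) : ℚ_[p]) = 2 := rfl
      rw [hc2, ← hz'] at h5
      rw [h7] at h6
      linear_combination (x + y * a) * h5 + (2 * a - 1) * h6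
    · left
      obtain ⟨m, hm, hm0⟩ := ev_sy h2 hA pi e1 (hT.out _ hi hiT)
      refine ⟨m, coe_ne m hm0, ?_⟩
      have h5 := congrArg (fun t : ℤ_[p] => (t : ℚ_[p])) hm
      rw [ez] at h5
      push_cast at h5
      exact h5
  have cj : (∃ m : ℚ_[p], m ≠ 0 ∧ x + y * (1 - a) = m * m) ∨
      (∃ n : ℚ_[p], n ≠ 0 ∧ D * (2 * a - 1) = n * n * (x + y * (1 - a))) := by
    by_cases hjT : (p, true) ∈ T
    · right
      obtain ⟨m, hm, hm0⟩ := ev_sy h2 hB pj e2 (hT.inn _ hjT)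
      refine ⟨m, coe_ne m hm0, ?_⟩
      have h5 := congrArg (fun t : ℤ_[p] => (t : ℚ_[p])) hm
      have h6 := congrArg (fun t : RR => ((ev (1 - A) hB t : ℤ_[p]) : ℚ_[p])) hzz
      simp only [map_mul, map_neg, map_intCast, efR.2] at h5 h6
      push_cast at h5 h6
      have h7 := ez' z
      have hc2 : ((2 : ℤ_[p]) : ℚ_[p]) = 2 := rfl
      rw [hc2, ← hz'] at h5
      rw [h7] at h6
      linear_combination (x + y * (1 - a)) * h5 - (2 * a - 1) * h6
    · left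
      obtain ⟨m, hm, hm0⟩ := ev_sy h2 hB pj e2 (hT.out _ hj hjT)
      refine ⟨m, coe_ne m hm0, ?_⟩
      have h5 := congrArg (fun t : ℤ_[p] => (t : ℚ_[p])) hm
      rw [ez'] at h5
      push_cast at h5
      exact h5
  rcases ci with ⟨m, hm0, hm⟩ | ⟨m, hm0, hm⟩ <;> rcases cj with ⟨n, hn0, hn⟩ | ⟨n, hn0, hn⟩
  · left
    refine SqS.sqz hD0 (sqS_split hs (w₁ := m) (w₂ := n) ?_ ?_)
    · linear_combination hm
    · linear_combination hn
  · right
    right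
    obtain ⟨r, hr0, hr⟩ := hsq (2 * A - 1) (-(2 * A - 1) * v7) (by
      linear_combination -4 * v7 * hA + hv7)
    obtain ⟨r', hr0', hr'⟩ := hsq ((2 * A - 1) * (1 - A) ^ 4)
      (-(2 * A - 1) * v7 * (2 * u4 * A) ^ 4) (by
        have k1 : (1 - A) * (2 * u4 * A) = 1 := by linear_combination -2 * u4 * hA + hu4
        have k2 : (1 - A) ^ 4 * (2 * u4 * A) ^ 4 = 1 := by rw [← mul_pow, k1, one_pow]
        linear_combination (-(2 * A - 1) * (2 * A - 1) * v7) * k2 - 4 * v7 * hA + hv7)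
    have hc2 : ((2 : ℤ_[p]) : ℚ_[p]) = 2 := rfl
    push_cast at hr hr'
    rw [hc2] at hr hr'
    refine mix hD0 (t := (p : ℚ_[p])) (m := m) (n := n) (r := r) (r' := r') hAq
      (by exact_mod_cast hp.out.ne_zero) hm0 hr0 hr0' hm hn ?_ ?_
    · exact hr
    · linear_combination hr'
  · right
    right
    obtain ⟨r, hr0, hr⟩ := hsq (2 * (1 - A) - 1) (-(2 * (1 - A) - 1) * v7) (by
      linear_combination -4 * v7 * hA + hv7)
    obtain ⟨r', hr0', hr'⟩ := hsq ((2 * (1 - A) - 1) * (1 - (1 - A)) ^ 4)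
      (-(2 * (1 - A) - 1) * v7 * (2 * u4 * (1 - A)) ^ 4) (by
        have k1 : (1 - (1 - A)) * (2 * u4 * (1 - A)) = 1 := by linear_combination -2 * u4 * hA + hu4
        have k2 : (1 - (1 - A)) ^ 4 * (2 * u4 * (1 - A)) ^ 4 = 1 := by rw [← mul_pow, k1, one_pow]
        linear_combination (-(2 * (1 - A) - 1) * (2 * (1 - A) - 1) * v7) * k2 - 4 * v7 * hA + hv7)
    have hc2 : ((2 : ℤ_[p]) : ℚ_[p]) = 2 := rfl
    push_cast at hr hr'
    rw [hc2] at hr hr'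
    refine mix hD0 (t := (p : ℚ_[p])) (a := 1 - a) (m := n) (n := m) (r := r) (r' := r')
      (by linear_combination hAq) (by exact_mod_cast hp.out.ne_zero) hn0 hr0 hr0' hn ?_ ?_ ?_
    · linear_combination hm
    · exact hr
    · linear_combination hr'
  · right
    left
    refine SqS.sqz0 hD0 (sqS_split hs (w₁ := m * (x + y * a)) (w₂ := n * (x + y * (1 - a))) ?_ ?_)
    · linear_combination (x + y * a) * hm + (D * y / 2 : ℚ_[p]) * hs
    · linear_combination (x + y * (1 - a)) * hn + (D * y / 2 : ℚ_[p]) * hs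

end

end Pool.Agent.L0h4.TC
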