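import Pool.Agent.L0h4.TC.Loc

/-!
# The class of a kernel vector is not trivial
-/

set_option autoImplicit false
set_option linter.unusedSectionVars false

namespace Pool.Agent.L0h4.TC

open Pool.Agent.Y698 Pool.Agent.Y698.SG Pool.Agent.L0h4.TW
open Pool.Agent.W192.HK
open Pool.Agent.Y279.SG (nR_int dec cXY_cj)

/-- parity of the multiplicity -/
lemma mul_odd {π W n z : RR} (hπ : Prime π) (hn : n ≠ 0) (h1 : π ∣ z) (h2 : ¬ π ^ 2 ∣ z)
    (h : W * W = n * n * z) : False := by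
  have hz : z ≠ 0 := by
    rintro rfl
    exact h2 (dvd_zero _)
  have hW : W ≠ 0 := by
    rintro rfl
    rw [mul_zero] at h
    exact mul_ne_zero (mul_ne_zero hn hn) hz h.symm
  have fin : ∀ x : RR, x ≠ 0 → FiniteMultiplicity π x := fun x hx =>
    FiniteMultiplicity.of_not_isUnit hπ.not_isUnit hx
  have e1 : multiplicity π (W * W) = multiplicity π W + multiplicity π W :=
    multiplicity_mul hπ (fin _ (mul_ne_zero hW hW))
  have e2 : multiplicity π (n * n * z) = multiplicity π (n * n) + multiplicity π z :=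
    multiplicity_mul hπ (fin _ (mul_ne_zero (mul_ne_zero hn hn) hz))
  have e3 : multiplicity π (n * n) = multiplicity π n + multiplicity π n :=
    multiplicity_mul hπ (fin _ (mul_ne_zero hn hn))
  have e4 : multiplicity π z = 1 :=
    multiplicity_eq_of_dvd_of_not_dvd (by rw [pow_one]; exact h1) h2
  rw [h, e2, e3, e4] at e1
  omega

/-- an element with a prime of odd multiplicity is not a square in the field -/
lemma no_sq {π z : RR} (hπ : Prime π) (h1 : π ∣ z) (h2 : ¬ π ^ 2 ∣ z) {A B : ℚ}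
    (e1 : A ^ 2 - 2 * B ^ 2 = cX z) (e2 : 2 * A * B + B ^ 2 = cY z) : False := by
  have hA : A * A.den = A.num := Rat.mul_den_eq_num A
  have hB : B * B.den = B.num := Rat.mul_den_eq_num B
  set n : ℤ := (A.den : ℤ) * B.den with hn
  set a' : ℤ := A.num * B.den with ha'
  set b' : ℤ := B.num * A.den with hb'
  have hn0 : n ≠ 0 := by
    rw [hn]
    exact mul_ne_zero (by exact_mod_cast A.den_nz) (by exact_mod_cast B.den_nz)
  have hAn : A * n = a' := by
    rw [hn, ha']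
    push_cast
    rw [← hA]
    ring
  have hBn : B * n = b' := by
    rw [hn, hb']
    push_cast
    rw [← hB]
    ring
  have f1 : a' ^ 2 - 2 * b' ^ 2 = n ^ 2 * cX z := by
    have : ((a' ^ 2 - 2 * b' ^ 2 : ℤ) : ℚ) = ((n ^ 2 * cX z : ℤ) : ℚ) := by
      push_cast
      rw [← hAn, ← hBn, ← e1]
      ring
    exact_mod_cast this
  have f2 : 2 * a' * b' + b' ^ 2 = n ^ 2 * cY z := by
    have : ((2 * a' * b' + b' ^ 2 : ℤ) : ℚ) = ((n ^ 2 * cY z : ℤ) : ℚ) := by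
      push_cast
      rw [← hAn, ← hBn, ← e2]
      ring
    exact_mod_cast this
  have hW : cX ((a' : RR) + (b' : RR) * aR) = a' ∧ cY ((a' : RR) + (b' : RR) * aR) = b' := by
    rw [(cXY_add _ _).1, (cXY_add _ _).2, (cXY_mul _ _).1, (cXY_mul _ _).2, (cXY_int _).1,
      (cXY_int _).2, (cXY_int _).1, (cXY_int _).2, cXY_aR.1, cXY_aR.2]
    constructor <;> ring
  refine mul_odd hπ (W := (a' : RR) + (b' : RR) * aR) (n := ((n : ℤ) : RR)) ?_ h1 h2 ?_
  · exact_mod_cast hn0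
  · have g1 := cXY_mul ((a' : RR) + (b' : RR) * aR) ((a' : RR) + (b' : RR) * aR)
    rw [hW.1, hW.2] at g1
    have g2 : ((n : ℤ) : RR) * ((n : ℤ) : RR) = ((n * n : ℤ) : RR) := by push_cast; rfl
    have g3 := cXY_mul ((n * n : ℤ) : RR) z
    rw [(cXY_int _).1, (cXY_int _).2] at g3
    rw [g2]
    refine RR_ext ?_ ?_
    · rw [g1.1, g3.1]
      linear_combination f1
    · rw [g1.2, g3.2]
      linear_combination f2

section
variable {D : ℤ} (hD0 : D ≠ 0) {z : RR}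

include hD0 in
/-- the class is not the class of `O` -/
theorem n1_of {π : RR} (hπ : Prime π) (h1 : π ∣ z) (h2 : ¬ π ^ 2 ∣ z) :
    ¬ SqZ ℚ (21 * D) (112 * D ^ 2) ((cX z : ℚ) + 11 * (cY z : ℚ)) ((cY z : ℚ) / D) := by
  have hD : (D : ℚ) ≠ 0 := by exact_mod_cast hD0
  rintro ⟨g, h, e1, e2⟩
  push_cast at e1 e2
  rw [div_eq_iff hD] at e2
  refine no_sq hπ h1 h2 (A := g - 11 * D * h) (B := D * h) ?_ ?_
  · linear_combination -e1 + 11 * e2
  · linear_combination -e2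

include hD0 in
/-- the class is not the class of `(0, 0)` -/
theorem n2_of (h7 : ¬ (7 : ℤ) ∣ D) (hz7 : ¬ (7 : ℤ) ∣ nR z) :
    ¬ SqZ ℚ (21 * D) (112 * D ^ 2) (((112 * D ^ 2 : ℤ) : ℚ) * ((cY z : ℚ) / D))
      (((21 * D : ℤ) : ℚ) * ((cY z : ℚ) / D) - ((cX z : ℚ) + 11 * (cY z : ℚ))) := by
  have hD : (D : ℚ) ≠ 0 := by exact_mod_cast hD0
  rintro ⟨g, h, e1, e2⟩
  push_cast at e1 e2
  have e1' : 112 * D * (cY z : ℚ) = g ^ 2 - 112 * D ^ 2 * h ^ 2 := by
    rw [← e1]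
    field_simp
  have e2' : 10 * (cY z : ℚ) - cX z = 2 * g * h - 21 * D * h ^ 2 := by
    rw [← e2]
    field_simp
    ring
  -- the element `- D (α - 11) z`
  set w : RR := ((-D : ℤ) : RR) * ((aR - 11) * z) with hw
  have ha11 : cX (aR - 11) = -11 ∧ cY (aR - 11) = 1 := by
    have h0 : (aR - 11 : RR) = aR + ((-11 : ℤ) : RR) := by push_cast; ring
    rw [h0, (cXY_add _ _).1, (cXY_add _ _).2, (cXY_int _).1, (cXY_int _).2, cXY_aR.1, cXY_aR.2]
    constructor <;> norm_num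
  have hwc : cX w = D * (11 * cX z + 2 * cY z) ∧ cY w = D * (10 * cY z - cX z) := by
    have k1 := cXY_mul (aR - 11) z
    rw [ha11.1, ha11.2] at k1
    have k2 := cXY_mul ((-D : ℤ) : RR) ((aR - 11) * z)
    rw [(cXY_int (-D)).1, (cXY_int (-D)).2, k1.1, k1.2] at k2
    rw [hw, k2.1, k2.2]
    constructor <;> ring
  have e3 : (aR - 11 : RR) = fR * (1 - aR) ^ 4 := by
    have q1 : (1 - aR) ^ 2 = -aR - 1 := by linear_combination aR_sq
    have q2 : (1 - aR) ^ 4 = 3 * aR - 1 := by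
      have : (1 - aR) ^ 4 = ((1 - aR) ^ 2) ^ 2 := by ring
      rw [this, q1]
      linear_combination aR_sq
    rw [q2]
    unfold fR
    linear_combination -6 * aR_sq
  have hw2 : w = fR * (((-D : ℤ) : RR) * ((1 - aR) ^ 4 * z)) := by
    rw [hw, e3]
    ring
  have hpf : Prime fR := by
    have h3 : nR fR = ((7 : ℕ) : ℤ) := by
      unfold nR
      rw [cXY_fR.1, cXY_fR.2]
      norm_num
    exact prime_of_nR (by norm_num) h3
  refine no_sq hpf (z := w) (A := g - 11 * D * h) (B := D * h) ?_ ?_ ?_ ?_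
  · rw [hw2]
    exact dvd_mul_right _ _
  · intro h5
    rw [hw2, pow_two] at h5
    have h6 : fR ∣ ((-D : ℤ) : RR) * ((1 - aR) ^ 4 * z) := (mul_dvd_mul_iff_left fR_ne).1 h5
    obtain ⟨t, ht⟩ := h6
    have h7' := congrArg nR ht
    have hn1 : nR (1 - aR) = 2 := by
      have h0 : (1 - aR : RR) = ((1 : ℤ) : RR) + ((-1 : ℤ) : RR) * aR := by push_cast; ring
      unfold nR
      rw [h0, (cXY_add _ _).1, (cXY_add _ _).2, (cXY_mul _ _).1, (cXY_mul _ _).2, (cXY_int _).1,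
        (cXY_int _).2, (cXY_int _).1, (cXY_int _).2, cXY_aR.1, cXY_aR.2]
      norm_num
    have hn4 : nR ((1 - aR) ^ 4) = 16 := by
      have h0 : (1 - aR) ^ 4 = (1 - aR) * (1 - aR) * ((1 - aR) * (1 - aR)) := by ring
      rw [h0, nR_mul, nR_mul, hn1]
      norm_num
    have hnf : nR fR = 7 := by
      unfold nR
      rw [cXY_fR.1, cXY_fR.2]
      norm_num
    rw [nR_mul, nR_mul, nR_mul, hn4, hnf, nR_int] at h7'
    have h8 : (7 : ℤ) ∣ (-D) ^ 2 * (16 * nR z) := ⟨nR t, h7'⟩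
    have p7 : Prime (7 : ℤ) := by
      have := Nat.prime_iff_prime_int.1 (show Nat.Prime 7 by norm_num)
      exact_mod_cast this
    rcases p7.dvd_or_dvd h8 with h9 | h9
    · have := p7.dvd_of_dvd_pow h9
      rw [dvd_neg] at this
      exact h7 this
    · rcases p7.dvd_or_dvd h9 with h10 | h10
      · revert h10
        norm_num
      · exact hz7 h10
  · rw [hwc.1]
    push_cast
    linear_combination -e1' + 11 * D * e2'
  · rw [hwc.2]
    push_cast
    linear_combination -D * e2'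

end

section
variable {Q P : Finset ℕ} {ϖ : ℕ → RR} {T : Finset (ℕ × Bool)}

/-- a prime which divides `z` exactly once -/
lemma zT_prime (h : Dt Q P ϖ) (hT : KT Q P ϖ T) : ∃ π : RR, Prime π ∧ π ∣ zT Q ϖ T ∧
    ¬ π ^ 2 ∣ zT Q ϖ T := by
  classical
  obtain ⟨i, hi⟩ := hT.ne
  have hp := (h.fx.pd i (hT.sub hi)).pr
  refine ⟨pfx Q ϖ i, hp, ?_, ?_⟩
  · exact Finset.dvd_prod_of_mem _ hi
  · intro h1
    unfold zT at h1
    rw [← Finset.mul_prod_erase _ _ hi, pow_two] at h1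
    have h2 := (mul_dvd_mul_iff_left hp.ne_zero).1 h1
    obtain ⟨j, hj, hj2⟩ := (Prime.dvd_finsetProd_iff hp _).1 h2
    rw [Finset.mem_erase] at hj
    apply h.fx.ne j (hT.sub hj.2) i (hT.sub hi) hj.1
    exact Ideal.mem_span_singleton.2 hj2

/-- the norm divides `D²` -/
lemma nR_zT (h : Dt Q P ϖ) (h4 : (∏ q ∈ Q ∪ P, q) % 4 = 1) (hT : T ⊆ ix Q P) :
    nR (zT Q ϖ T) ∣ (((∏ q ∈ Q ∪ P, q : ℕ) : ℤ)) ^ 2 := by
  have h1 := congrArg nR (zT_mul h h4 hT)
  rw [nR_mul, nR_nat] at h1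
  exact ⟨_, by rw [← h1]; ring⟩

/-- the coordinates modulo four -/
lemma zT_mod (h : Dt Q P ϖ) (h4 : (∏ q ∈ Q ∪ P, q) % 4 = 1) (hT : T ⊆ ix Q P) :
    cX (zT Q ϖ T) % 4 = 1 ∧ cY (zT Q ϖ T) % 2 = 0 := by
  classical
  have hodd : nR (zT Q ϖ T) % 2 = 1 := by
    have h1 := nR_zT h h4 hT
    obtain ⟨k, hk⟩ := h1
    obtain ⟨m, hm⟩ : ∃ m : ℤ, ((∏ q ∈ Q ∪ P, q : ℕ) : ℤ) = 1 + 4 * m :=
      ⟨((∏ q ∈ Q ∪ P, q : ℕ) : ℤ) / 4, by omega⟩
    rw [hm] at hk
    rcases Int.emod_two_eq_zero_or_one (nR (zT Q ϖ T)) with h5 | h5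
    · exfalso
      obtain ⟨t, ht⟩ := Int.dvd_of_emod_eq_zero h5
      rw [ht] at hk
      have h6 : (1 + 4 * m) ^ 2 = 1 + 2 * (4 * m + 8 * m ^ 2) := by ring
      have h7 : 2 * t * k = 2 * (t * k) := by ring
      rw [h6, h7] at hk
      omega
    · exact h5
  have hN : N1 (zT Q ϖ T) := by
    unfold zT
    refine Finset.prod_induction _ N1 ?_ ?_ ?_
    · rintro x y ⟨u, rfl⟩ ⟨v, rfl⟩
      exact ⟨u + v + aR ^ 2 * u * v, by ring⟩
    · exact ⟨0, by ring⟩
    · intro i hi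
      exact (h.fx.pd i (hT hi)).n1
  exact ⟨(N1_iff hodd).1 hN, (par hodd).2⟩

end

end Pool.Agent.L0h4.TC
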