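import Pool.Agent.L0h4.TC.Hen

/-!
# Evaluation of the elements of `ℤ[α]` in `ℤ_p`, `p` split
-/

set_option autoImplicit false
set_option linter.unusedSectionVars false

namespace Pool.Agent.L0h4.TC

open Pool.Agent.Y698 Pool.Agent.Y698.SG Pool.Agent.L0h4.TW
open Pool.Agent.W192.HK

section
variable {p : ℕ} [hp : Fact p.Prime]

lemma ker_p (x : ℤ_[p]) : PadicInt.toZMod x = 0 ↔ ∃ k : ℤ_[p], x = p * k := by
  rw [← RingHom.mem_ker, PadicInt.ker_toZMod, PadicInt.maximalIdeal_eq_span_p,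
    Ideal.mem_span_singleton]
  rfl

lemma unit_of_mod {x : ℤ_[p]} (h : PadicInt.toZMod x ≠ 0) : IsUnit x := by
  by_contra hn
  apply h
  rw [← RingHom.mem_ker, PadicInt.ker_toZMod]
  exact (IsLocalRing.mem_maximalIdeal _).2 hn

lemma unit_sq (h2 : p % 2 = 1) {x t : ℤ_[p]} (h : PadicInt.toZMod x = PadicInt.toZMod t ^ 2)
    (h0 : PadicInt.toZMod x ≠ 0) : IsSquare x := by
  have ht0 : PadicInt.toZMod t ≠ 0 := by
    intro h1
    rw [h1] at h
    exact h0 (by rw [h]; ring)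
  obtain ⟨u, hu⟩ := (unit_of_mod ht0).exists_right_inv
  have h3 : PadicInt.toZMod (x - t ^ 2) = 0 := by
    rw [map_sub, map_pow, h, sub_self]
  obtain ⟨k, hk⟩ := (ker_p _).1 h3
  obtain ⟨m, hm⟩ := psq h2 (k * u ^ 2)
  refine ⟨t * m, ?_⟩
  have e : x = t ^ 2 * (1 + p * (k * u ^ 2)) := by
    linear_combination hk - (p * k * (t * u + 1) : ℤ_[p]) * hu
  rw [e, hm]
  ring

/-- the root of `a² = a - 2` which is given modulo `p` -/
lemma hens_root (h2 : p % 2 = 1) {a₀ : ZMod p} (h : a₀ ^ 2 = a₀ - 2) (h1 : 2 * a₀ - 1 ≠ 0) :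
    ∃ A : ℤ_[p], A ^ 2 = A - 2 ∧ PadicInt.toZMod A = a₀ := by
  obtain ⟨t, rfl⟩ := ZMod.intCast_surjective a₀
  -- `-7` is a square
  have e0 : PadicInt.toZMod ((-7 : ℤ_[p])) = PadicInt.toZMod ((2 * t - 1 : ℤ_[p])) ^ 2 := by
    have e1 : PadicInt.toZMod ((-7 : ℤ_[p])) = (-7 : ZMod p) := by
      rw [map_neg, map_ofNat]
    have e2 : PadicInt.toZMod ((2 * t - 1 : ℤ_[p])) = 2 * (t : ZMod p) - 1 := by
      rw [map_sub, map_mul, map_ofNat, map_intCast, map_one]
    rw [e1, e2]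
    linear_combination -4 * h
  have e3 : PadicInt.toZMod ((-7 : ℤ_[p])) ≠ 0 := by
    rw [e0]
    have e2 : PadicInt.toZMod ((2 * t - 1 : ℤ_[p])) = 2 * (t : ZMod p) - 1 := by
      rw [map_sub, map_mul, map_ofNat, map_intCast, map_one]
    rw [e2]
    exact pow_ne_zero 2 h1
  obtain ⟨s, hs⟩ := unit_sq h2 e0 e3
  obtain ⟨u, hu⟩ := four_unit (p := p) h2
  have hmod : PadicInt.toZMod s = 2 * (t : ZMod p) - 1 ∨ PadicInt.toZMod s = -(2 * (t : ZMod p) - 1) := by
    have h3 : PadicInt.toZMod s ^ 2 = (2 * (t : ZMod p) - 1) ^ 2 := by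
      have h4 := congrArg PadicInt.toZMod hs
      rw [map_mul] at h4
      rw [pow_two, ← h4, e0]
      congr 1
      rw [map_sub, map_mul, map_ofNat, map_intCast, map_one]
    exact sq_eq_sq_iff_eq_or_eq_neg.1 h3
  have hu4 : (4 : ZMod p) * PadicInt.toZMod u = 1 := by
    have h4 := congrArg PadicInt.toZMod hu
    rw [map_mul, map_one, map_ofNat] at h4
    exact h4
  -- the two signs
  have key : ∀ s : ℤ_[p], s * s = -7 → PadicInt.toZMod s = 2 * (t : ZMod p) - 1 →
      ∃ A : ℤ_[p], A ^ 2 = A - 2 ∧ PadicInt.toZMod A = (t : ZMod p) := by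
    intro s hs hm
    refine ⟨2 * u * (1 + s), ?_, ?_⟩
    · linear_combination (u * (1 + s) * (1 + s) - 2 : ℤ_[p]) * hu + u * hs
    · rw [map_mul, map_mul, map_add, map_ofNat, map_one, hm]
      linear_combination (t : ZMod p) * hu4
  rcases hmod with h3 | h3
  · exact key s hs.symm h3
  · exact key (-s) (by rw [neg_mul_neg]; exact hs.symm) (by rw [map_neg, h3, neg_neg])

/-- the evaluation of an element whose symbol is one -/
lemma ev_sy (h2 : p % 2 = 1) {A : ℤ_[p]} (hA : A ^ 2 = A - 2) {w x : RR} (hw : Prime w)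
    (h0 : PadicInt.toZMod (ev A hA w) = 0) (hx : sy w x = 1) :
    ∃ m : ℤ_[p], ev A hA x = m * m ∧ m ≠ 0 := by
  have h1 : x ∉ sp w := by
    intro h
    unfold sy at hx
    rw [if_pos h] at hx
    exact zero_ne_one hx
  have h3 : IsSquare (Ideal.Quotient.mk (sp w) x) := by
    by_contra h
    unfold sy at hx
    rw [if_neg h1, if_neg h] at hx
    norm_num at hx
  obtain ⟨t', ht'⟩ := h3
  obtain ⟨t, rfl⟩ := Ideal.Quotient.mk_surjective t'
  rw [← map_mul, Ideal.Quotient.eq, Ideal.mem_span_singleton] at ht'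
  obtain ⟨k, hk⟩ := ht'
  set φ : RR →+* ZMod p := (PadicInt.toZMod (p := p)).comp (ev A hA) with hφ
  have hφw : φ w = 0 := h0
  have e1 : φ x = φ t ^ 2 := by
    have : x = t * t + w * k := by linear_combination hk
    rw [this, map_add, map_mul, map_mul, hφw, zero_mul, add_zero, pow_two]
  have hker : RingHom.ker φ = sp w := by
    have hmax := maximal_sp hw.irreducible
    refine (hmax.eq_of_le ?_ ?_).symm
    · exact (RingHom.ker_isPrime φ).ne_top
    · rw [Ideal.span_singleton_le_iff_mem]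
      exact hφw
  have hx0 : φ x ≠ 0 := by
    intro h
    apply h1
    rw [← hker]
    exact h
  obtain ⟨m, hm⟩ := unit_sq (x := ev A hA x) (t := ev A hA t) h2 e1 hx0
  refine ⟨m, hm, ?_⟩
  rintro rfl
  rw [mul_zero] at hm
  apply hx0
  show PadicInt.toZMod (ev A hA x) = 0
  rw [hm, map_zero]

end

end Pool.Agent.L0h4.TC
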